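import Pool.Agent.Y377.IR.Stm

/-!
# Job IR-LIFT: extension of general points
-/

set_option linter.style.haveILetI false
set_option autoImplicit false

namespace Pool.Agent.Y68.IR

open PrimeSpectrum

theorem lift_aux (T : Type) [CommRing T] [Algebra ℂ T] (R : Type) [CommRing R] [Algebra ℂ R]
    [Algebra R T] [IsScalarTower ℂ R T] (hft : Algebra.FiniteType R T) (φ : R →ₐ[ℂ] ℂ)
    (Q : Ideal T) (hQ : Q ≠ ⊤) (hQP : ∀ r : R, φ r = 0 → algebraMap R T r ∈ Q) :
    ∃ ψ : T →ₐ[ℂ] ℂ, ∀ r : R, ψ (algebraMap R T r) = φ r := by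
  obtain ⟨m, hm, hQm⟩ := Ideal.exists_le_maximal Q hQ
  letI : Field (T ⧸ m) := Ideal.Quotient.field m
  have hkey : ∀ r : R, Ideal.Quotient.mk m (algebraMap R T r) = algebraMap ℂ (T ⧸ m) (φ r) := by
    intro r
    have h1 : algebraMap R T (r - algebraMap ℂ R (φ r)) ∈ m := by
      apply hQm
      apply hQP
      rw [map_sub, AlgHom.commutes]
      simp
    have h2 := Ideal.Quotient.eq_zero_iff_mem.2 h1
    rw [map_sub, map_sub, sub_eq_zero] at h2
    rw [h2, ← IsScalarTower.algebraMap_apply ℂ R T]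
    rfl
  have hfin : Algebra.FiniteType ℂ (T ⧸ m) := by
    obtain ⟨S, hS⟩ := hft.out
    classical
    refine ⟨⟨S.image (Ideal.Quotient.mk m), ?_⟩⟩
    rw [eq_top_iff]
    rintro x -
    obtain ⟨t, rfl⟩ := Ideal.Quotient.mk_surjective x
    have ht : t ∈ Algebra.adjoin R (S : Set T) := by rw [hS]; trivial
    induction ht using Algebra.adjoin_induction with
    | mem x hx =>
      apply Algebra.subset_adjoin
      rw [Finset.coe_image]
      exact ⟨x, hx, rfl⟩
    | algebraMap r =>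
      rw [hkey r]
      exact Subalgebra.algebraMap_mem _ _
    | add x y _ _ h1 h2 => rw [map_add]; exact Subalgebra.add_mem _ h1 h2
    | mul x y _ _ h1 h2 => rw [map_mul]; exact Subalgebra.mul_mem _ h1 h2
  have hfm : Module.Finite ℂ (T ⧸ m) := finite_of_finite_type_of_isJacobsonRing ℂ (T ⧸ m)
  have hbij : Function.Bijective (algebraMap ℂ (T ⧸ m)) :=
    IsAlgClosed.algebraMap_bijective_of_isIntegral
  let e : ℂ ≃ₐ[ℂ] (T ⧸ m) := AlgEquiv.ofBijective (Algebra.ofId ℂ (T ⧸ m)) hbij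
  refine ⟨(e.symm : (T ⧸ m) →ₐ[ℂ] ℂ).comp (Ideal.Quotient.mkₐ ℂ m), fun r => ?_⟩
  change e.symm (Ideal.Quotient.mk m (algebraMap R T r)) = φ r
  rw [hkey r]
  exact e.symm_apply_apply (φ r)

theorem lift (R T : Type) [CommRing R] [CommRing T] [Algebra ℂ R] [Algebra ℂ T]
  [Algebra R T] [IsScalarTower ℂ R T] (hnoeth : IsNoetherianRing R)
    (hft : Algebra.FiniteType R T) (hinj : Function.Injective (algebraMap R T))
    (hnt : Nontrivial R) :
      ∃ s : R, s ≠ 0 ∧ ∀ φ : R →ₐ[ℂ] ℂ, φ s ≠ 0 →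
        ∃ ψ : T →ₐ[ℂ] ℂ, ∀ r : R, ψ (algebraMap R T r) = φ r := by
  classical
  obtain ⟨⟨p, hp⟩⟩ := Ideal.nonempty_minimalPrimes (bot_ne_top (α := Ideal R))
  have hpp : p.IsPrime := hp.1.1
  have hfinm : (minimalPrimes R).Finite := minimalPrimes.finite_of_isNoetherianRing R
  -- an element of all the other minimal primes
  obtain ⟨w, hw, hwp⟩ : ∃ w : R, (∀ q ∈ minimalPrimes R, q ≠ p → w ∈ q) ∧ w ∉ p := by
    have h1 : ¬ (hfinm.toFinset.erase p).inf id ≤ p := by
      intro h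
      rw [Ideal.IsPrime.inf_le' hpp] at h
      obtain ⟨q, hq, hqp⟩ := h
      rw [Finset.mem_erase, Set.Finite.mem_toFinset] at hq
      exact hq.1 (le_antisymm hqp (hp.2 ⟨hq.2.1.1, bot_le⟩ hqp))
    obtain ⟨w, hw, hwp⟩ := SetLike.not_le_iff_exists.1 h1
    refine ⟨w, fun q hq hqp => ?_, hwp⟩
    have h2 : (hfinm.toFinset.erase p).inf id ≤ q :=
      Finset.inf_le (f := id) (Finset.mem_erase.2 ⟨hqp, hfinm.mem_toFinset.2 hq⟩)
    exact h2 hw
  have hfp : (algebraMap R T).FinitePresentation :=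
    RingHom.finitePresentation_algebraMap.2 (Algebra.FinitePresentation.of_finiteType.1 hft)
  obtain ⟨S, hS⟩ := exists_constructibleSetData_iff.2 (isConstructible_range_comap hfp)
  obtain ⟨q, hq, hqp⟩ := Ideal.exists_comap_eq_of_mem_minimalPrimes_of_injective hinj p hp
  have h1 : (⟨p, hpp⟩ : PrimeSpectrum R) ∈ S.toSet := by
    rw [hS]
    exact ⟨⟨q, hq⟩, PrimeSpectrum.ext hqp⟩
  unfold ConstructibleSetData.toSet at h1
  rw [Set.mem_iUnion₂] at h1
  obtain ⟨C, hC, hpC⟩ := h1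
  have hg : ∀ i, C.g i ∈ p := fun i => hpC.1 ⟨i, rfl⟩
  have hf : C.f ∉ p := fun h => hpC.2 (by
    rw [mem_zeroLocus, Set.singleton_subset_iff]
    exact h)
  refine ⟨C.f * w, fun h0 => ?_, fun φ hφ => ?_⟩
  · have : C.f * w ∈ p := by rw [h0]; exact p.zero_mem
    rcases hpp.mem_or_mem this with h | h
    · exact hf h
    · exact hwp h
  · rw [map_mul] at hφ
    have hPp : (RingHom.ker φ).IsPrime := RingHom.ker_isPrime φ
    obtain ⟨p1, hp1, hp1P⟩ := Ideal.exists_minimalPrimes_le (bot_le : (⊥ : Ideal R) ≤ RingHom.ker φ)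
    have hpP : p ≤ RingHom.ker φ := by
      by_cases h : p1 = p
      · rw [← h]; exact hp1P
      · exact absurd ((RingHom.mem_ker).1 (hp1P (hw p1 hp1 h))) (right_ne_zero_of_mul hφ)
    have h2 : (⟨RingHom.ker φ, hPp⟩ : PrimeSpectrum R) ∈ S.toSet := by
      unfold ConstructibleSetData.toSet
      rw [Set.mem_iUnion₂]
      refine ⟨C, hC, ?_, fun h => ?_⟩
      · rw [mem_zeroLocus]
        rintro _ ⟨i, rfl⟩
        exact hpP (hg i)
      · rw [mem_zeroLocus, Set.singleton_subset_iff] at h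
        exact left_ne_zero_of_mul hφ ((RingHom.mem_ker).1 h)
    rw [hS] at h2
    obtain ⟨Q, hQ⟩ := h2
    refine lift_aux T R hft φ Q.asIdeal Q.isPrime.ne_top fun r hr => ?_
    have h3 : r ∈ (comap (algebraMap R T) Q).asIdeal := by
      rw [hQ]
      exact (RingHom.mem_ker).2 hr
    exact h3

theorem t_LIFT : Pool.Agent.Y377.IR.G_LIFT := by
  intro R T _ _ _ _ _ _ _ hnoeth hft hinj hnt
  exact lift R T hnoeth hft hinj hnt

end Pool.Agent.Y68.IR
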